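import Mathlib

open Filter Topology Polynomial

namespace Pool.Agent.helper34.StrongNormal

variable {X : Type*} [NormedAddCommGroup X] [NormedSpace ℂ X]

/-- `X` is smooth: each unit vector `x` admits exactly one norm-one functional `f` with
`f x = 1`. -/
def IsSmoothSpace (X : Type*) [NormedAddCommGroup X] [NormedSpace ℂ X] : Prop :=
  ∀ x : X, ‖x‖ = 1 → ∃! f : StrongDual ℂ X, ‖f‖ = 1 ∧ f x = 1

/-- `J` is a duality map: `‖J x‖ = ‖x‖` and `J x x = ‖x‖²` (so `J 0 = 0`). On a smooth space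
there is exactly one such map. -/
def IsDualityMap (J : X → StrongDual ℂ X) : Prop :=
  ∀ x, ‖J x‖ = ‖x‖ ∧ J x x = ((‖x‖ : ℂ)) ^ 2

/-- `T` is self-adjoint for the duality map `J`: `J (T x) y = J x (T y)`. -/
def IsSelfAdj (J : X → StrongDual ℂ X) (T : X →L[ℂ] X) : Prop :=
  ∀ x y, J (T x) y = J x (T y)

/-- `A` is strongly normal: `A = S²` for a self-adjoint `S`. -/
def IsStronglyNormal (J : X → StrongDual ℂ X) (A : X →L[ℂ] X) : Prop :=
  ∃ S : X →L[ℂ] X, IsSelfAdj J S ∧ A = S ^ 2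

/-! ### Basic facts on the duality map -/

section Duality

variable {J : X → StrongDual ℂ X}

lemma IsDualityMap.norm_apply_le (hJ : IsDualityMap J) (x y : X) : ‖J x y‖ ≤ ‖x‖ * ‖y‖ := by
  rw [← (hJ x).1]
  exact (J x).le_opNorm y

lemma IsDualityMap.re_le (hJ : IsDualityMap J) (x y : X) : (J x y).re ≤ ‖x‖ * ‖y‖ :=
  (Complex.re_le_norm _).trans (hJ.norm_apply_le x y)

lemma IsDualityMap.abs_re_le (hJ : IsDualityMap J) (x y : X) : |(J x y).re| ≤ ‖x‖ * ‖y‖ :=
  (Complex.abs_re_le_norm _).trans (hJ.norm_apply_le x y)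

lemma IsDualityMap.re_self (hJ : IsDualityMap J) (x : X) : (J x x).re = ‖x‖ ^ 2 := by
  rw [(hJ x).2, ← Complex.ofReal_pow, Complex.ofReal_re]

/-- The subdifferential inequality for `‖·‖²`. -/
lemma IsDualityMap.subdiff (hJ : IsDualityMap J) (x y : X) :
    ‖x‖ ^ 2 + 2 * (J x (y - x)).re ≤ ‖y‖ ^ 2 := by
  have h1 := hJ.re_le x y
  have h2 := hJ.re_self x
  rw [map_sub, Complex.sub_re, h2]
  nlinarith [sq_nonneg (‖x‖ - ‖y‖)]

/-- uniqueness of the duality functional -/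
lemma unique_functional (hX : IsSmoothSpace X) {x : X} {f g : StrongDual ℂ X}
    (hf : ‖f‖ = ‖x‖) (hfx : f x = ((‖x‖ : ℂ)) ^ 2)
    (hg : ‖g‖ = ‖x‖) (hgx : g x = ((‖x‖ : ℂ)) ^ 2) : f = g := by
  by_cases hx : x = 0
  · rw [hx, norm_zero] at hf hg
    rw [norm_eq_zero.1 hf, norm_eq_zero.1 hg]
  · have hx0 : ‖x‖ ≠ 0 := norm_ne_zero_iff.2 hx
    have hxc : (‖x‖ : ℂ) ≠ 0 := by exact_mod_cast hx0
    have hu : ‖((‖x‖ : ℂ)⁻¹) • x‖ = 1 := by
      rw [norm_smul, norm_inv, Complex.norm_real, norm_norm, inv_mul_cancel₀ hx0]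
    obtain ⟨h, -, huniq⟩ := hX _ hu
    have key : ∀ f : StrongDual ℂ X, ‖f‖ = ‖x‖ → f x = ((‖x‖ : ℂ)) ^ 2 →
        ((‖x‖ : ℂ)⁻¹) • f = h := by
      intro f hf hfx
      refine huniq _ ⟨?_, ?_⟩
      · rw [norm_smul, norm_inv, Complex.norm_real, norm_norm, hf, inv_mul_cancel₀ hx0]
      · rw [smul_apply, map_smul, hfx, smul_eq_mul, smul_eq_mul]
        field_simp
    have h1 := (key f hf hfx).trans (key g hg hgx).symm
    exact smul_right_injective _ (inv_ne_zero hxc) h1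

/-- norm-to-weak-star continuity of the duality map -/
lemma IsDualityMap.continuous_apply (hJ : IsDualityMap J) (hX : IsSmoothSpace X) (y : X) :
    Continuous (fun x => J x y) := by
  rw [continuous_iff_continuousAt]
  intro x₀
  rw [ContinuousAt, tendsto_iff_ultrafilter]
  intro U hU
  -- the images are eventually in a weak-star compact ball
  have hcomp := WeakDual.isCompact_closedBall (𝕜 := ℂ) (E := X) 0 (‖x₀‖ + 1)
  have hnorm : Tendsto (fun x : X => ‖x‖) U (𝓝 ‖x₀‖) := (continuous_norm.tendsto x₀).mono_left hU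
  have hev : ∀ᶠ x in (U : Filter X), ‖x‖ ≤ ‖x₀‖ + 1 :=
    hnorm.eventually (Iic_mem_nhds (by linarith))
  let Jw : X → WeakDual ℂ X := fun x => WeakDual.toStrongDual.symm (J x)
  have hmem : ((U.map Jw : Ultrafilter (WeakDual ℂ X)) : Filter (WeakDual ℂ X)) ≤
      𝓟 (⇑WeakDual.toStrongDual ⁻¹' Metric.closedBall (0 : StrongDual ℂ X) (‖x₀‖ + 1)) := by
    rw [Ultrafilter.coe_map, le_principal_iff, mem_map]
    filter_upwards [hev] with x hx
    show J x ∈ Metric.closedBall (0 : StrongDual ℂ X) (‖x₀‖ + 1)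
    rw [mem_closedBall_zero_iff, (hJ x).1]
    exact hx
  obtain ⟨f, -, hf⟩ := hcomp.ultrafilter_le_nhds _ hmem
  rw [Ultrafilter.coe_map] at hf
  have hlim : ∀ u : X, Tendsto (fun x => J x u) U (𝓝 (f u)) := by
    intro u
    have h1 : Tendsto (fun g : WeakDual ℂ X => g u) (𝓝 f) (𝓝 (f u)) :=
      (WeakDual.eval_continuous u).tendsto f
    exact h1.comp (show Tendsto Jw U (𝓝 f) from hf)
  have hfle : ∀ u : X, ‖f u‖ ≤ ‖x₀‖ * ‖u‖ := by
    intro u
    exact le_of_tendsto_of_tendsto (hlim u).norm (hnorm.mul_const _)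
      (Eventually.of_forall fun x => hJ.norm_apply_le x u)
  have hfx : f x₀ = ((‖x₀‖ : ℂ)) ^ 2 := by
    have h1 : Tendsto (fun x => J x x₀) U (𝓝 (((‖x₀‖ : ℂ)) ^ 2)) := by
      have h2 : Tendsto (fun x => J x x) U (𝓝 (((‖x₀‖ : ℂ)) ^ 2)) := by
        have : (fun x => J x x) = fun x => ((‖x‖ : ℂ)) ^ 2 := funext fun x => (hJ x).2
        rw [this]
        exact ((Complex.continuous_ofReal.tendsto _).comp hnorm).pow 2
      have h3 : Tendsto (fun x => J x (x - x₀)) U (𝓝 0) := by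
        have h4 : Tendsto (fun x : X => ‖x‖ * ‖x - x₀‖) U (𝓝 (‖x₀‖ * 0)) := by
          refine hnorm.mul ?_
          have h5 : Tendsto (fun x : X => ‖x - x₀‖) (𝓝 x₀) (𝓝 ‖x₀ - x₀‖) := by
            exact ((continuous_id.sub continuous_const).norm).tendsto x₀
          rw [sub_self, norm_zero] at h5
          exact h5.mono_left hU
        rw [mul_zero] at h4
        exact squeeze_zero_norm (fun x => hJ.norm_apply_le x _) h4
      have h6 := h2.sub h3
      rw [sub_zero] at h6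
      refine h6.congr fun x => ?_
      rw [map_sub, sub_sub_cancel]
    exact tendsto_nhds_unique (hlim x₀) h1
  have hfnorm : ‖WeakDual.toStrongDual f‖ = ‖x₀‖ := by
    apply le_antisymm
    · exact ContinuousLinearMap.opNorm_le_bound _ (norm_nonneg _) hfle
    · by_cases hx0 : ‖x₀‖ = 0
      · rw [hx0]; exact norm_nonneg _
      · have h1 := (WeakDual.toStrongDual f).le_opNorm x₀
        have h2 : ‖(WeakDual.toStrongDual f) x₀‖ = ‖x₀‖ ^ 2 := by
          show ‖f x₀‖ = _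
          rw [hfx, norm_pow, Complex.norm_real, norm_norm]
        rw [h2] at h1
        have h3 : 0 < ‖x₀‖ := lt_of_le_of_ne (norm_nonneg _) (Ne.symm hx0)
        nlinarith
  have hfJ : WeakDual.toStrongDual f = J x₀ :=
    unique_functional hX hfnorm hfx (hJ x₀).1 (hJ x₀).2
  have : f y = J x₀ y := by rw [← hfJ]; rfl
  rw [← this]
  exact hlim y

/-- the derivative of `‖x + s h‖²` -/
lemma IsDualityMap.hasDerivAt (hJ : IsDualityMap J) (hX : IsSmoothSpace X) (x h : X) :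
    HasDerivAt (fun s : ℝ => ‖x + s • h‖ ^ 2) (2 * (J x h).re) 0 := by
  rw [hasDerivAt_iff_tendsto_slope_zero]
  have hc : Tendsto (fun s : ℝ => 2 * (J (x + s • h) h).re) (𝓝[≠] 0) (𝓝 (2 * (J x h).re)) := by
    have h1 : Continuous (fun s : ℝ => 2 * (J (x + s • h) h).re) := by
      refine continuous_const.mul (Complex.continuous_re.comp ?_)
      exact (hJ.continuous_apply hX h).comp (by fun_prop)
    have h2 := h1.tendsto 0
    simp only [zero_smul, add_zero] at h2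
    exact h2.mono_left nhdsWithin_le_nhds
  have hb : ∀ s : ℝ, s ≠ 0 →
      |s⁻¹ • (‖x + (0 + s) • h‖ ^ 2 - ‖x + (0 : ℝ) • h‖ ^ 2) - 2 * (J x h).re| ≤
        |2 * (J (x + s • h) h).re - 2 * (J x h).re| := by
    intro s hs
    rw [zero_add, zero_smul, add_zero, smul_eq_mul]
    have h1 := hJ.subdiff x (x + s • h)
    have h2 := hJ.subdiff (x + s • h) x
    have e1 : (J x (x + s • h - x)).re = s * (J x h).re := by
      rw [add_sub_cancel_left]
      have : s • h = (s : ℂ) • h := (Complex.coe_smul s h).symm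
      rw [this, map_smul, smul_eq_mul, Complex.re_ofReal_mul]
    have e2 : (J (x + s • h) (x - (x + s • h))).re = - (s * (J (x + s • h) h).re) := by
      have : x - (x + s • h) = -((s : ℂ) • h) := by
        rw [Complex.coe_smul]; abel
      rw [this, map_neg, map_smul, smul_eq_mul, Complex.neg_re, Complex.re_ofReal_mul]
    rw [e1] at h1
    rw [e2] at h2
    set a := (J x h).re
    set b := (J (x + s • h) h).re
    set c := ‖x + s • h‖ ^ 2 - ‖x‖ ^ 2 with hc'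
    have h3 : s * (2 * a) ≤ c := by rw [hc']; linarith
    have h4 : c ≤ s * (2 * b) := by rw [hc']; linarith
    rcases lt_or_gt_of_ne hs with hneg | hpos
    · have h5 : s⁻¹ * c ≤ 2 * a := by
        have := mul_le_mul_of_nonpos_left h3 (inv_lt_zero.2 hneg).le
        rwa [inv_mul_cancel_left₀ hs] at this
      have h6 : 2 * b ≤ s⁻¹ * c := by
        have := mul_le_mul_of_nonpos_left h4 (inv_lt_zero.2 hneg).le
        rwa [inv_mul_cancel_left₀ hs] at this
      rw [abs_of_nonpos (by linarith), abs_of_nonpos (by linarith)]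
      linarith
    · have h5 : 2 * a ≤ s⁻¹ * c := by
        rw [le_inv_mul_iff₀ hpos]; exact h3
      have h6 : s⁻¹ * c ≤ 2 * b := by
        rw [inv_mul_le_iff₀ hpos]; exact h4
      rw [abs_of_nonneg (by linarith), abs_of_nonneg (by linarith)]
      linarith
  rw [tendsto_iff_norm_sub_tendsto_zero]
  rw [tendsto_iff_norm_sub_tendsto_zero] at hc
  refine squeeze_zero' (Eventually.of_forall fun s => norm_nonneg _) ?_ hc
  filter_upwards [self_mem_nhdsWithin] with s hs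
  exact hb s hs

end Duality


/-! ### Polynomials in `T²` -/

section Poly

variable {J : X → StrongDual ℂ X} {T : X →L[ℂ] X}

lemma IsSelfAdj.pow (hT : IsSelfAdj J T) (n : ℕ) (x y : X) :
    J ((T ^ n) x) y = J x ((T ^ n) y) := by
  induction n generalizing x y with
  | zero => simp
  | succ n ih =>
    rw [pow_succ, mul_apply_eq_comp, mul_apply_eq_comp, ih, hT,
      ← mul_apply_eq_comp, ← mul_apply_eq_comp, ← pow_succ, ← pow_succ']

lemma IsSelfAdj.sq_pow (hT : IsSelfAdj J T) (n : ℕ) (x y : X) :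
    J x (((T ^ 2) ^ n) y) = J ((T ^ n) x) ((T ^ n) y) := by
  rw [hT.pow, ← mul_apply_eq_comp, ← pow_add, ← pow_mul, two_mul]

lemma coe_real_smul_apply (a : ℝ) (A : X →L[ℂ] X) (x : X) : (a • A) x = (a : ℂ) • A x := by
  rw [smul_apply]
  exact (Complex.coe_smul a (A x)).symm

lemma re_aeval (hT : IsSelfAdj J T) (p : ℝ[X]) (x y : X) :
    (J x ((aeval (T ^ 2) p) y)).re =
      p.sum fun n a => a * (J ((T ^ n) x) ((T ^ n) y)).re := by
  rw [aeval_eq_sum_range, Polynomial.sum_over_range]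
  · rw [sum_apply, map_sum, Complex.re_sum]
    refine Finset.sum_congr rfl fun n _ => ?_
    rw [coe_real_smul_apply, map_smul, smul_eq_mul, Complex.re_ofReal_mul, hT.sq_pow]
  · intro n; simp

/-- Nonnegative coefficients. -/
def NN (p : ℝ[X]) : Prop := ∀ n, 0 ≤ p.coeff n

lemma norm_pow_le_one (hT1 : ‖T‖ ≤ 1) (n : ℕ) : ‖T ^ n‖ ≤ 1 := by
  induction n with
  | zero => rw [pow_zero]; exact ContinuousLinearMap.norm_id_le
  | succ n ih =>
    rw [pow_succ]
    refine (norm_mul_le _ _).trans ?_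
    calc ‖T ^ n‖ * ‖T‖ ≤ 1 * 1 := by gcongr
      _ = 1 := one_mul _

lemma norm_pow_apply_le (hT1 : ‖T‖ ≤ 1) (n : ℕ) (x : X) : ‖(T ^ n) x‖ ≤ ‖x‖ := by
  have h1 : ‖T ^ n‖ ≤ 1 := norm_pow_le_one hT1 n
  calc ‖(T ^ n) x‖ ≤ ‖T ^ n‖ * ‖x‖ := (T ^ n).le_opNorm x
    _ ≤ 1 * ‖x‖ := by gcongr
    _ = ‖x‖ := one_mul _

lemma sum_nn_le {p : ℝ[X]} (hp : NN p) {f : ℕ → ℝ} (C : ℝ) (h : ∀ n, |f n| ≤ C) :
    |p.sum fun n a => a * f n| ≤ p.eval 1 * C := by
  rw [Polynomial.sum_def, eval_eq_sum, Polynomial.sum_def, Finset.sum_mul]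
  refine (Finset.abs_sum_le_sum_abs _ _).trans (Finset.sum_le_sum fun n _ => ?_)
  rw [abs_mul, abs_of_nonneg (hp n), one_pow, mul_one]
  exact mul_le_mul_of_nonneg_left (h n) (hp n)

/-- operator norm bound -/
lemma norm_aeval_le (hT1 : ‖T‖ ≤ 1) {p : ℝ[X]} (hp : NN p) :
    ‖aeval (T ^ 2) p‖ ≤ p.eval 1 := by
  rw [aeval_eq_sum_range, eval_eq_sum_range]
  refine (norm_sum_le _ _).trans (Finset.sum_le_sum fun n _ => ?_)
  rw [norm_smul, Real.norm_of_nonneg (hp n), one_pow]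
  refine mul_le_mul_of_nonneg_left ?_ (hp n)
  rw [← pow_mul]
  exact norm_pow_le_one hT1 _

/-- Lipschitz estimate. -/
lemma lip_aeval (hJ : IsDualityMap J) (hT : IsSelfAdj J T) (hT1 : ‖T‖ ≤ 1) {p : ℝ[X]}
    (hp : NN p) (z z' : X) :
    |(J z' (aeval (T ^ 2) p z')).re - (J z (aeval (T ^ 2) p z)).re| ≤
      p.eval 1 * (‖z' - z‖ * (‖z'‖ + ‖z‖)) := by
  rw [re_aeval hT, re_aeval hT]
  have : ((p.sum fun n a => a * (J ((T ^ n) z') ((T ^ n) z')).re) -
      p.sum fun n a => a * (J ((T ^ n) z) ((T ^ n) z)).re) =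
      p.sum fun n a => a * ((J ((T ^ n) z') ((T ^ n) z')).re - (J ((T ^ n) z) ((T ^ n) z)).re) := by
    simp only [Polynomial.sum_def]
    rw [← Finset.sum_sub_distrib]
    exact Finset.sum_congr rfl fun n _ => by ring
  rw [this]
  refine sum_nn_le hp _ fun n => ?_
  rw [hJ.re_self, hJ.re_self]
  have h1 : ‖(T ^ n) z'‖ ^ 2 - ‖(T ^ n) z‖ ^ 2 =
      (‖(T ^ n) z'‖ - ‖(T ^ n) z‖) * (‖(T ^ n) z'‖ + ‖(T ^ n) z‖) := by ring
  rw [h1, abs_mul, abs_of_nonneg (a := ‖(T ^ n) z'‖ + ‖(T ^ n) z‖) (by positivity)]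
  refine mul_le_mul ?_ (add_le_add (norm_pow_apply_le hT1 n _) (norm_pow_apply_le hT1 n _))
    (by positivity) (norm_nonneg _)
  refine (abs_norm_sub_norm_le _ _).trans ?_
  rw [← map_sub]
  exact norm_pow_apply_le hT1 n _

/-- The defect of the identity `‖V x‖² = Re J x (V² x)`. -/
noncomputable def defect (J : X → StrongDual ℂ X) (V : X →L[ℂ] X) (x : X) : ℝ :=
  ‖V x‖ ^ 2 - (J x (V (V x))).re

lemma defect_aeval (hJ : IsDualityMap J) (hT : IsSelfAdj J T) (hT1 : ‖T‖ ≤ 1) {p : ℝ[X]}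
    (hp : NN p) (V : X →L[ℂ] X) (hV : Commute V T) (e : ℝ)
    (he : ∀ x, |defect J V x| ≤ e * ‖x‖ ^ 2) (x : X) :
    |(J (V x) (aeval (T ^ 2) p (V x))).re - (J x (aeval (T ^ 2) p (V (V x)))).re| ≤
      p.eval 1 * (e * ‖x‖ ^ 2) := by
  rw [re_aeval hT, re_aeval hT]
  have : ((p.sum fun n a => a * (J ((T ^ n) (V x)) ((T ^ n) (V x))).re) -
      p.sum fun n a => a * (J ((T ^ n) x) ((T ^ n) (V (V x)))).re) =
      p.sum fun n a => a * defect J V ((T ^ n) x) := by
    simp only [Polynomial.sum_def]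
    rw [← Finset.sum_sub_distrib]
    refine Finset.sum_congr rfl fun n _ => ?_
    have hc : ∀ y, (T ^ n) (V y) = V ((T ^ n) y) := by
      intro y
      have h := (hV.pow_right n).eq
      rw [← mul_apply_eq_comp, ← mul_apply_eq_comp, h]
    rw [defect, hc, hc, hc, hJ.re_self]
    ring
  rw [this]
  refine sum_nn_le hp _ fun n => (he _).trans ?_
  have he0 : 0 ≤ e ∨ ‖x‖ = 0 := by
    by_contra hcon
    push Not at hcon
    have h1 := he x
    have h2 : 0 < ‖x‖ ^ 2 := by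
      have := lt_of_le_of_ne (norm_nonneg x) (Ne.symm hcon.2)
      positivity
    have h3 := abs_nonneg (defect J V x)
    nlinarith
  rcases he0 with he0 | hx0
  · gcongr
    exact norm_pow_apply_le hT1 n x
  · have h1 : x = 0 := norm_eq_zero.1 hx0
    rw [h1]
    simp

/-- The truncated geometric series `∑_{j<m} s^j y^{j+1}`. -/
noncomputable def geo (y : ℝ[X]) (s : ℝ) (m : ℕ) : ℝ[X] :=
  ∑ j ∈ Finset.range m, C (s ^ j) * y ^ (j + 1)

lemma NN.mul {p q : ℝ[X]} (hp : NN p) (hq : NN q) : NN (p * q) := by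
  intro n
  rw [coeff_mul]
  exact Finset.sum_nonneg fun i _ => mul_nonneg (hp _) (hq _)

lemma NN.add {p q : ℝ[X]} (hp : NN p) (hq : NN q) : NN (p + q) := by
  intro n
  rw [coeff_add]
  exact add_nonneg (hp _) (hq _)

lemma NN.pow {p : ℝ[X]} (hp : NN p) (n : ℕ) : NN (p ^ n) := by
  induction n with
  | zero =>
    intro n
    rw [pow_zero, coeff_one]
    split_ifs <;> norm_num
  | succ n ih => rw [pow_succ]; exact ih.mul hp

lemma NN.C_mul {p : ℝ[X]} (hp : NN p) {c : ℝ} (hc : 0 ≤ c) : NN (C c * p) := by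
  intro n
  rw [coeff_C_mul]
  exact mul_nonneg hc (hp n)

lemma NN.sum {ι : Type*} (s : Finset ι) {f : ι → ℝ[X]} (h : ∀ i ∈ s, NN (f i)) :
    NN (∑ i ∈ s, f i) := by
  intro n
  rw [finsetSum_coeff]
  exact Finset.sum_nonneg fun i hi => h i hi n

lemma NN.eval_nonneg {p : ℝ[X]} (hp : NN p) : 0 ≤ p.eval 1 := by
  rw [eval_eq_sum_range]
  exact Finset.sum_nonneg fun n _ => by rw [one_pow, mul_one]; exact hp n

lemma nn_geo {y : ℝ[X]} (hy : NN y) {s : ℝ} (hs : 0 ≤ s) (m : ℕ) : NN (geo y s m) :=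
  NN.sum _ fun j _ => (hy.pow _).C_mul (pow_nonneg hs j)

lemma geo_mul (y : ℝ[X]) (s : ℝ) (m : ℕ) :
    geo y s m * (1 - C s * y) = y - C (s ^ m) * y ^ (m + 1) := by
  induction m with
  | zero => simp [geo]
  | succ m ih =>
    have : geo y s (m + 1) = geo y s m + C (s ^ m) * y ^ (m + 1) := by
      unfold geo
      rw [Finset.sum_range_succ]
    rw [this, add_mul, ih, pow_succ s m, C_mul]
    ring

lemma eval_geo_le {y : ℝ[X]} (hy : NN y) {s : ℝ} (hs : 0 ≤ s) (hs1 : s ≤ 1) {ρ : ℝ}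
    (hρ : y.eval 1 ≤ ρ) (hρ1 : ρ < 1) (m : ℕ) : (geo y s m).eval 1 ≤ ρ / (1 - ρ) := by
  have hy0 := hy.eval_nonneg
  have hρ0 : 0 ≤ ρ := hy0.trans hρ
  have h1 : (geo y s m).eval 1 ≤ ∑ j ∈ Finset.range m, ρ ^ j * ρ := by
    unfold geo
    rw [eval_finsetSum]
    refine Finset.sum_le_sum fun j _ => ?_
    rw [eval_mul, eval_C, eval_pow, pow_succ]
    calc s ^ j * (eval 1 y ^ j * eval 1 y) ≤ 1 * (ρ ^ j * ρ) := by
          gcongr
          exact pow_le_one₀ hs hs1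
      _ = _ := one_mul _
  refine h1.trans ?_
  rw [← Finset.sum_mul, geom_sum_eq hρ1.ne, mul_comm, div_eq_mul_inv, div_eq_mul_inv]
  have h2 : 0 < 1 - ρ := by linarith
  have h3 : (ρ ^ m - 1) * (ρ - 1)⁻¹ = (1 - ρ ^ m) * (1 - ρ)⁻¹ := by
    rw [← neg_sub 1 (ρ ^ m), ← neg_sub 1 ρ, inv_neg]
    ring
  rw [h3]
  refine mul_le_mul_of_nonneg_left ?_ hρ0
  have h4 : 0 ≤ ρ ^ m := by positivity
  have h5 : 0 < (1 - ρ)⁻¹ := inv_pos.2 h2
  nlinarith

lemma aeval_comm (p q : ℝ[X]) (x : X) :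
    aeval (T ^ 2) p (aeval (T ^ 2) q x) = aeval (T ^ 2) q (aeval (T ^ 2) p x) := by
  rw [← mul_apply_eq_comp, ← mul_apply_eq_comp, ← map_mul, ← map_mul, mul_comm]

lemma commute_aeval (p : ℝ[X]) : Commute (aeval (T ^ 2) p) T := by
  rw [aeval_eq_sum_range]
  refine Commute.sum_left _ _ _ fun n _ => ?_
  refine Commute.smul_left ?_ _
  rw [← pow_mul]
  exact (Commute.refl T).pow_left _

/-- One step of the propagation in `s`. -/
lemma step (hJ : IsDualityMap J) (hT : IsSelfAdj J T) (hT1 : ‖T‖ ≤ 1) {y : ℝ[X]} (hy : NN y)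
    {ρ : ℝ} (hρ : y.eval 1 ≤ ρ) (hρ1 : ρ < 1) {s ε e : ℝ} (hs : 0 ≤ s) (hε : 0 < ε)
    (hs1 : s + ε ≤ 1) (he0 : 0 ≤ e)
    (he : ∀ x, |defect J (aeval (T ^ 2) (1 - C s * y)) x| ≤ e * ‖x‖ ^ 2) (x : X) :
    |defect J (aeval (T ^ 2) (1 - C (s + ε) * y)) x| ≤
      ((1 + 2 * (ρ / (1 - ρ)) * ε) * e + (12 * (ρ / (1 - ρ)) + 17) * ε ^ 2) * ‖x‖ ^ 2 := by
  have hy0 := hy.eval_nonneg
  have hρ0 : 0 ≤ ρ := hy0.trans hρ
  set β : ℝ := ρ / (1 - ρ) with hβ
  have hβ0 : 0 ≤ β := div_nonneg hρ0 (by linarith)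
  obtain ⟨m, hm⟩ := exists_pow_lt_of_lt_one hε hρ1
  set V := aeval (T ^ 2) (1 - C s * y) with hV
  set V' := aeval (T ^ 2) (1 - C (s + ε) * y) with hV'
  set Y := aeval (T ^ 2) y with hY
  set B := aeval (T ^ 2) (geo y s m) with hB
  set Q := aeval (T ^ 2) (C (s ^ m) * y ^ (m + 1)) with hQ
  have hBβ : (geo y s m).eval 1 ≤ β := eval_geo_le hy hs (by linarith) hρ hρ1 m
  have hBnn : NN (geo y s m) := nn_geo hy hs m
  -- F1
  have F1 : ∀ u, Y u = B (V u) + Q u := by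
    intro u
    have h : B * V = Y - Q := by
      rw [hB, hV, hY, hQ, ← map_mul, ← map_sub, geo_mul]
    have h2 : B (V u) = Y u - Q u := by
      rw [← mul_apply_eq_comp, h, sub_apply]
    rw [h2, sub_add_cancel]
  have hQn : ∀ u, ‖Q u‖ ≤ ε * ‖u‖ := by
    intro u
    refine (Q.le_opNorm u).trans (mul_le_mul_of_nonneg_right ?_ (norm_nonneg _))
    have hnn : NN (C (s ^ m) * y ^ (m + 1)) := (hy.pow _).C_mul (pow_nonneg hs m)
    refine (norm_aeval_le hT1 hnn).trans ?_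
    rw [eval_mul, eval_C, eval_pow]
    calc s ^ m * eval 1 y ^ (m + 1) ≤ 1 * (ρ ^ (m + 1)) := by
          gcongr
          exact pow_le_one₀ hs (by linarith)
      _ = ρ ^ m * ρ := by rw [one_mul, pow_succ]
      _ ≤ ε * 1 := by gcongr
      _ = ε := mul_one _
  have hYn : ∀ u, ‖Y u‖ ≤ ‖u‖ := by
    intro u
    refine (Y.le_opNorm u).trans ?_
    calc ‖Y‖ * ‖u‖ ≤ 1 * ‖u‖ := by
          gcongr
          exact (norm_aeval_le hT1 hy).trans (hρ.trans hρ1.le)
      _ = ‖u‖ := one_mul _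
  have hBn : ∀ u, ‖B u‖ ≤ β * ‖u‖ := by
    intro u
    refine (B.le_opNorm u).trans (mul_le_mul_of_nonneg_right ?_ (norm_nonneg _))
    exact (norm_aeval_le hT1 hBnn).trans hBβ
  have hVu : ∀ (c : ℝ) (u : X), aeval (T ^ 2) (1 - C c * y) u = u - (c : ℂ) • Y u := by
    intro c u
    rw [map_sub, map_mul, map_one, aeval_C, sub_apply, mul_apply_eq_comp, one_apply_eq_self,
      Algebra.algebraMap_eq_smul_one, coe_real_smul_apply, one_apply_eq_self]
  have hVn : ∀ c : ℝ, 0 ≤ c → c ≤ 1 → ∀ u, ‖aeval (T ^ 2) (1 - C c * y) u‖ ≤ 2 * ‖u‖ := by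
    intro c hc0 hc1 u
    rw [hVu]
    refine (norm_sub_le _ _).trans ?_
    rw [norm_smul, Complex.norm_real, Real.norm_of_nonneg hc0]
    have := hYn u
    have h2 := norm_nonneg (Y u)
    nlinarith
  have hV2 : ∀ u, ‖V u‖ ≤ 2 * ‖u‖ := hVn s hs (by linarith)
  have hV'2 : ∀ u, ‖V' u‖ ≤ 2 * ‖u‖ := hVn (s + ε) (by linarith) hs1
  have hV'V : ∀ u, V' u = V u - (ε : ℂ) • Y u := by
    intro u
    rw [hV', hV, hVu, hVu]
    push_cast
    rw [add_smul]
    abel
  have hYV : ∀ u, V (Y u) = Y (V u) := fun u => aeval_comm _ _ _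
  -- the quantities
  set N := ‖x‖ ^ 2 with hN
  have hN0 : 0 ≤ N := by positivity
  set z := V x with hz
  set z' := V' x with hz'
  have hzz : z' - z = -((ε : ℂ) • Y x) := by rw [hz', hz, hV'V]; abel
  have hzzn : ‖z' - z‖ ≤ ε * ‖x‖ := by
    rw [hzz, norm_neg, norm_smul, Complex.norm_real, Real.norm_of_nonneg hε.le]
    exact mul_le_mul_of_nonneg_left (hYn x) hε.le
  have hz2 : ‖z‖ ≤ 2 * ‖x‖ := hV2 x
  have hz'2 : ‖z'‖ ≤ 2 * ‖x‖ := hV'2 x
  have ha : ‖z‖ ^ 2 - 2 * ε * (J z (Y x)).re ≤ ‖z'‖ ^ 2 := by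
    have h := hJ.subdiff z z'
    rw [hzz, map_neg, map_smul, smul_eq_mul, Complex.neg_re, Complex.re_ofReal_mul] at h
    linarith
  have hb : ‖z'‖ ^ 2 + 2 * ε * (J z' (Y x)).re ≤ ‖z‖ ^ 2 := by
    have h := hJ.subdiff z' z
    have h2 : z - z' = (ε : ℂ) • Y x := by rw [← neg_sub, hzz, neg_neg]
    rw [h2, map_smul, smul_eq_mul, Complex.re_ofReal_mul] at h
    linarith
  have hc : |(J z' (Y x)).re - (J z (Y x)).re| ≤ (6 * β + 4) * ε * N := by
    have h1 := lip_aeval hJ hT hT1 hBnn z z'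
    rw [← hB] at h1
    have h2 : |(J z' (B (z' - z))).re| ≤ 2 * β * ε * N := by
      refine (hJ.abs_re_le _ _).trans ?_
      calc ‖z'‖ * ‖B (z' - z)‖ ≤ (2 * ‖x‖) * (β * (ε * ‖x‖)) := by
            gcongr
            exact (hBn _).trans (by gcongr)
        _ = 2 * β * ε * N := by rw [hN]; ring
    have h3 : |(J z' (Q x)).re| ≤ 2 * ε * N := by
      refine (hJ.abs_re_le _ _).trans ?_
      calc ‖z'‖ * ‖Q x‖ ≤ (2 * ‖x‖) * (ε * ‖x‖) := by gcongr; exact hQn x
        _ = 2 * ε * N := by rw [hN]; ring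
    have h4 : |(J z (Q x)).re| ≤ 2 * ε * N := by
      refine (hJ.abs_re_le _ _).trans ?_
      calc ‖z‖ * ‖Q x‖ ≤ (2 * ‖x‖) * (ε * ‖x‖) := by gcongr; exact hQn x
        _ = 2 * ε * N := by rw [hN]; ring
    have h5 : |(J z' (B z')).re - (J z (B z)).re| ≤ 4 * β * ε * N := by
      refine h1.trans ?_
      calc (geo y s m).eval 1 * (‖z' - z‖ * (‖z'‖ + ‖z‖)) ≤
            β * ((ε * ‖x‖) * (2 * ‖x‖ + 2 * ‖x‖)) := by gcongr
        _ = 4 * β * ε * N := by rw [hN]; ring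
    have h6 : (J z' (Y x)).re = (J z' (B z')).re - (J z' (B (z' - z))).re + (J z' (Q x)).re := by
      rw [F1 x, map_add, Complex.add_re, ← hz, map_sub B, map_sub (J z'), Complex.sub_re]
      ring
    have h7 : (J z (Y x)).re = (J z (B z)).re + (J z (Q x)).re := by
      rw [F1 x, map_add, Complex.add_re, ← hz]
    rw [h6, h7]
    have h8 : (J z' (B z')).re - (J z' (B (z' - z))).re + (J z' (Q x)).re -
        ((J z (B z)).re + (J z (Q x)).re) =
        ((J z' (B z')).re - (J z (B z)).re) - (J z' (B (z' - z))).re + (J z' (Q x)).re -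
        (J z (Q x)).re := by ring
    rw [h8]
    rw [abs_le] at h2 h3 h4 h5 ⊢
    constructor <;> linarith [h2.1, h2.2, h3.1, h3.2, h4.1, h4.2, h5.1, h5.2]
  have hd : (J x (V' (V' x))).re = (J x (V (V x))).re - 2 * ε * (J x (Y (V x))).re +
      ε ^ 2 * (J x (Y (Y x))).re := by
    have h1 : V' (V' x) = V (V x) - (ε : ℂ) • Y (V x) - (ε : ℂ) • Y (V x) +
        (ε : ℂ) • ((ε : ℂ) • Y (Y x)) := by
      rw [hV'V x, hV'V, map_sub V, map_sub Y, map_smul, map_smul, hYV]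
      rw [smul_sub]
      abel
    rw [h1, map_add, map_sub, map_sub, map_smul, map_smul, map_smul]
    simp only [smul_eq_mul, Complex.add_re, Complex.sub_re, Complex.re_ofReal_mul]
    ring
  have hQQ : |(J x (Y (Y x))).re| ≤ N := by
    refine (hJ.abs_re_le _ _).trans ?_
    calc ‖x‖ * ‖Y (Y x)‖ ≤ ‖x‖ * ‖x‖ := by
          gcongr
          exact (hYn _).trans (hYn _)
      _ = N := by rw [hN]; ring
  have hee : |(J z (Y x)).re - (J x (Y (V x))).re| ≤ (β * e + 4 * ε) * N := by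
    have h1 := defect_aeval hJ hT hT1 hBnn V (commute_aeval _) e he x
    rw [← hB] at h1
    have h2 : |(J z (Q x)).re| ≤ 2 * ε * N := by
      refine (hJ.abs_re_le _ _).trans ?_
      calc ‖z‖ * ‖Q x‖ ≤ (2 * ‖x‖) * (ε * ‖x‖) := by gcongr; exact hQn x
        _ = 2 * ε * N := by rw [hN]; ring
    have h3 : |(J x (Q (V x))).re| ≤ 2 * ε * N := by
      refine (hJ.abs_re_le _ _).trans ?_
      calc ‖x‖ * ‖Q (V x)‖ ≤ ‖x‖ * (ε * (2 * ‖x‖)) := by
            gcongr
            exact (hQn _).trans (by gcongr)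
        _ = 2 * ε * N := by rw [hN]; ring
    have h4 : (J z (Y x)).re = (J z (B z)).re + (J z (Q x)).re := by
      rw [F1 x, map_add, Complex.add_re, ← hz]
    have h5 : (J x (Y (V x))).re = (J x (B (V (V x)))).re + (J x (Q (V x))).re := by
      rw [F1 (V x), map_add, Complex.add_re]
    have h6 : |(J z (B z)).re - (J x (B (V (V x)))).re| ≤ β * e * N := by
      refine h1.trans ?_
      calc (geo y s m).eval 1 * (e * N) ≤ β * (e * N) := by gcongr
        _ = β * e * N := by ring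
    rw [h4, h5]
    rw [abs_le] at h2 h3 h6 ⊢
    constructor <;> linarith [h2.1, h2.2, h3.1, h3.2, h6.1, h6.2]
  have hD := he x
  unfold defect at hD ⊢
  rw [← hN] at hD
  rw [← hz', hd]
  rw [← hz] at hD ⊢
  set a := (J z (Y x)).re
  set a' := (J z' (Y x)).re
  set b := (J x (Y z)).re
  set q := (J x (Y (Y x))).re
  set v := (J x (V z)).re
  have h9 : ‖z'‖ ^ 2 - (v - 2 * ε * b + ε ^ 2 * q) =
      (‖z‖ ^ 2 - v) + (‖z'‖ ^ 2 - ‖z‖ ^ 2 + 2 * ε * a) - 2 * ε * (a - b) - ε ^ 2 * q := by ring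
  rw [h9]
  have h10 : |‖z'‖ ^ 2 - ‖z‖ ^ 2 + 2 * ε * a| ≤ 2 * ε * ((6 * β + 4) * ε * N) := by
    rw [abs_le] at hc ⊢
    constructor
    · have : 0 ≤ 2 * ε * ((6 * β + 4) * ε * N) := by positivity
      linarith
    · have : 2 * ε * (a - a') ≤ 2 * ε * ((6 * β + 4) * ε * N) := by
        gcongr
        linarith [hc.1]
      linarith
  have h11 : |2 * ε * (a - b)| ≤ 2 * ε * ((β * e + 4 * ε) * N) := by
    rw [abs_mul, abs_of_pos (by positivity : 0 < 2 * ε)]
    gcongr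
  have h12 : |ε ^ 2 * q| ≤ ε ^ 2 * N := by
    rw [abs_mul, abs_of_pos (by positivity : 0 < ε ^ 2)]
    gcongr
  have h13 : ((1 + 2 * β * ε) * e + (12 * β + 17) * ε ^ 2) * N =
      e * N + 2 * ε * ((6 * β + 4) * ε * N) + 2 * ε * ((β * e + 4 * ε) * N) + ε ^ 2 * N := by ring
  rw [h13]
  rw [abs_le] at hD h10 h11 h12 ⊢
  constructor <;>
    linarith [hD.1, hD.2, h10.1, h10.2, h11.1, h11.2, h12.1, h12.2]

/-- The identity `‖V x‖² = Re J x (V² x)` for `V = 1 - y(T²)`, where `y` has nonnegative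
coefficients and `y(1) < 1`. -/
lemma defect_eq_zero (hJ : IsDualityMap J) (hT : IsSelfAdj J T) (hT1 : ‖T‖ ≤ 1) {y : ℝ[X]}
    (hy : NN y) (hρ1 : y.eval 1 < 1) (x : X) : defect J (aeval (T ^ 2) (1 - y)) x = 0 := by
  have hy0 := hy.eval_nonneg
  set ρ := y.eval 1 with hρ
  set β : ℝ := ρ / (1 - ρ) with hβ
  have hβ0 : 0 ≤ β := div_nonneg hy0 (by linarith)
  set K : ℝ := 12 * β + 17 with hK
  have hK0 : 0 ≤ K := by positivity
  have main : ∀ n : ℕ, 0 < n → |defect J (aeval (T ^ 2) (1 - y)) x| ≤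
      (K * Real.exp (2 * β) * ‖x‖ ^ 2) * (1 / (n : ℝ)) := by
    intro n hn
    have hn' : (0 : ℝ) < n := by exact_mod_cast hn
    have ind : ∀ k : ℕ, k ≤ n → ∀ u, |defect J (aeval (T ^ 2) (1 - C ((k : ℝ) * (1 / n)) * y)) u| ≤
        ((1 + 2 * β * (1 / n)) ^ k * (k * (K * (1 / n) ^ 2))) * ‖u‖ ^ 2 := by
      intro k
      induction k with
      | zero =>
        intro _ u
        have h1 : aeval (T ^ 2) (1 - C (((0 : ℕ) : ℝ) * (1 / n)) * y) = (1 : X →L[ℂ] X) := by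
          simp
        rw [h1, defect]
        simp only [one_apply_eq_self]
        rw [hJ.re_self]
        simp
      | succ k ih =>
        intro hk u
        have h1 := ih (by omega)
        have hk1 : (k : ℝ) * (1 / n) + 1 / n ≤ 1 := by
          have : ((k + 1 : ℕ) : ℝ) ≤ n := by exact_mod_cast hk
          push_cast at this
          rw [← add_one_mul, mul_one_div, div_le_one hn']
          exact this
        have h2 := step hJ hT hT1 hy le_rfl hρ1 (s := (k : ℝ) * (1 / n)) (ε := 1 / n)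
          (by positivity) (by positivity) hk1 (by positivity) h1 u
        have h3 : ((k : ℝ) * (1 / n) + 1 / n) = ((k + 1 : ℕ) : ℝ) * (1 / n) := by
          push_cast; ring
        rw [h3] at h2
        refine h2.trans ?_
        gcongr ?_ * ‖u‖ ^ 2
        push_cast
        have h4 : (1 : ℝ) ≤ (1 + 2 * β * (1 / n)) ^ (k + 1) :=
          one_le_pow₀ (by have : 0 ≤ 2 * β * (1 / (n : ℝ)) := by positivity
                          linarith)
        have h5 : 0 ≤ K * (1 / (n : ℝ)) ^ 2 := by positivity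
        calc (1 + 2 * β * (1 / n)) * ((1 + 2 * β * (1 / n)) ^ k * (k * (K * (1 / n) ^ 2))) +
              K * (1 / n) ^ 2
            = (1 + 2 * β * (1 / n)) ^ (k + 1) * (k * (K * (1 / n) ^ 2)) + 1 * (K * (1 / n) ^ 2) := by
              ring
          _ ≤ (1 + 2 * β * (1 / n)) ^ (k + 1) * (k * (K * (1 / n) ^ 2)) +
              (1 + 2 * β * (1 / n)) ^ (k + 1) * (K * (1 / n) ^ 2) := by gcongr
          _ = (1 + 2 * β * (1 / n)) ^ (k + 1) * ((k + 1) * (K * (1 / n) ^ 2)) := by ring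
    have h1 := ind n le_rfl x
    have h2 : (n : ℝ) * (1 / n) = 1 := by field_simp
    rw [h2, C_1, one_mul] at h1
    refine h1.trans ?_
    have h3 : (1 + 2 * β * (1 / (n : ℝ))) ^ n ≤ Real.exp (2 * β) := by
      have h4 : 1 + 2 * β * (1 / (n : ℝ)) ≤ Real.exp (2 * β * (1 / n)) := by
        have := Real.add_one_le_exp (2 * β * (1 / (n : ℝ)))
        linarith
      calc (1 + 2 * β * (1 / (n : ℝ))) ^ n ≤ (Real.exp (2 * β * (1 / n))) ^ n := by gcongr
        _ = Real.exp (2 * β) := by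
          rw [← Real.exp_nat_mul]
          congr 1
          field_simp
    calc ((1 + 2 * β * (1 / (n : ℝ))) ^ n * (n * (K * (1 / n) ^ 2))) * ‖x‖ ^ 2
        ≤ (Real.exp (2 * β) * (n * (K * (1 / n) ^ 2))) * ‖x‖ ^ 2 := by gcongr
      _ = (K * Real.exp (2 * β) * ‖x‖ ^ 2) * (1 / (n : ℝ)) := by
          field_simp
  have hlim : Tendsto (fun n : ℕ => (K * Real.exp (2 * β) * ‖x‖ ^ 2) * (1 / (n : ℝ))) atTop
      (𝓝 ((K * Real.exp (2 * β) * ‖x‖ ^ 2) * 0)) :=
    tendsto_one_div_atTop_nhds_zero_nat.const_mul _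
  rw [mul_zero] at hlim
  have h0 : |defect J (aeval (T ^ 2) (1 - y)) x| ≤ 0 := by
    refine ge_of_tendsto hlim ?_
    filter_upwards [eventually_gt_atTop 0] with n hn
    exact main n hn
  exact abs_nonpos_iff.1 h0

lemma re_polar (hJ : IsDualityMap J) (hX : IsSmoothSpace X) (hT : IsSelfAdj J T)
    (hT1 : ‖T‖ ≤ 1) {y : ℝ[X]} (hy : NN y) (hρ1 : y.eval 1 < 1) (x h : X) :
    (J (aeval (T ^ 2) (1 - y) x) (aeval (T ^ 2) (1 - y) h)).re =
      (J x (aeval (T ^ 2) (1 - y) (aeval (T ^ 2) (1 - y) h))).re := by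
  set V := aeval (T ^ 2) (1 - y) with hV
  set w : ℝ[X] := (1 - y) * (1 - y) with hw
  have hVV : ∀ u, V (V u) = aeval (T ^ 2) w u := by
    intro u
    rw [hw, map_mul, mul_apply_eq_comp]
  have h1 : HasDerivAt (fun s : ℝ => ‖V x + s • V h‖ ^ 2) (2 * (J (V x) (V h)).re) 0 :=
    hJ.hasDerivAt hX _ _
  have h2 : HasDerivAt (fun s : ℝ => ∑ n ∈ w.support, w.coeff n * ‖(T ^ n) x + s • (T ^ n) h‖ ^ 2)
      (∑ n ∈ w.support, w.coeff n * (2 * (J ((T ^ n) x) ((T ^ n) h)).re)) 0 := by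
    refine HasDerivAt.fun_sum fun n _ => ?_
    exact (hJ.hasDerivAt hX _ _).const_mul _
  have h3 : (fun s : ℝ => ‖V x + s • V h‖ ^ 2) =
      fun s : ℝ => ∑ n ∈ w.support, w.coeff n * ‖(T ^ n) x + s • (T ^ n) h‖ ^ 2 := by
    funext s
    have h4 := defect_eq_zero hJ hT hT1 hy hρ1 (x + s • h)
    unfold defect at h4
    rw [← hV, hVV, re_aeval hT, Polynomial.sum_def] at h4
    have h5 : V (x + s • h) = V x + s • V h := by
      rw [map_add, ← Complex.coe_smul, ← Complex.coe_smul, map_smul]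
    rw [h5] at h4
    rw [sub_eq_zero.1 h4]
    refine Finset.sum_congr rfl fun n _ => ?_
    rw [hJ.re_self]
    have h6 : (T ^ n) (x + s • h) = (T ^ n) x + s • (T ^ n) h := by
      rw [map_add, ← Complex.coe_smul, ← Complex.coe_smul, map_smul]
    rw [h6]
  rw [h3] at h1
  have h7 := h1.unique h2
  have h9 := re_aeval hT w x h
  rw [Polynomial.sum_def] at h9
  rw [hVV, h9]
  have h8 : ∑ n ∈ w.support, w.coeff n * (2 * (J ((T ^ n) x) ((T ^ n) h)).re) =
      2 * ∑ n ∈ w.support, w.coeff n * (J ((T ^ n) x) ((T ^ n) h)).re := by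
    rw [Finset.mul_sum]
    exact Finset.sum_congr rfl fun n _ => by ring
  rw [h8] at h7
  linarith

lemma selfAdj_one_sub [CompleteSpace X] (hJ : IsDualityMap J) (hX : IsSmoothSpace X)
    (hT : IsSelfAdj J T) (hT1 : ‖T‖ ≤ 1) {y : ℝ[X]} (hy : NN y) (hρ1 : y.eval 1 < 1) :
    IsSelfAdj J (aeval (T ^ 2) (1 - y)) := by
  intro x u
  have hunit : IsUnit (aeval (T ^ 2) (1 - y)) := by
    rw [map_sub, map_one]
    exact isUnit_one_sub_of_norm_lt_one ((norm_aeval_le hT1 hy).trans_lt hρ1)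
  obtain ⟨W, hW⟩ := hunit.exists_right_inv
  set V := aeval (T ^ 2) (1 - y) with hV
  set h := W u with hh
  have hu : V h = u := by
    rw [hh, ← mul_apply_eq_comp, hW, one_apply_eq_self]
  rw [← hu]
  have h1 := re_polar hJ hX hT hT1 hy hρ1 x h
  have h2 := re_polar hJ hX hT hT1 hy hρ1 x (Complex.I • h)
  rw [← hV] at h1 h2
  rw [map_smul, map_smul, map_smul, map_smul, smul_eq_mul, smul_eq_mul, Complex.I_mul_re,
    Complex.I_mul_re] at h2
  exact Complex.ext h1 (by linarith)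

end Poly

/-! ### The square root of `1 - T²` -/

section Sqrt

variable {J : X → StrongDual ℂ X} {T : X →L[ℂ] X}

/-- The polynomials `y_0 = 0`, `y_{k+1} = (X + y_k²)/2`. -/
noncomputable def yseq : ℕ → ℝ[X]
  | 0 => 0
  | k + 1 => C (1 / 2) * (Polynomial.X + yseq k ^ 2)

lemma nn_X : NN (Polynomial.X : ℝ[X]) := by
  intro n
  rw [coeff_X]
  split_ifs <;> norm_num

lemma nn_yseq (k : ℕ) : NN (yseq k) := by
  induction k with
  | zero => intro n; simp [yseq]
  | succ k ih => exact (nn_X.add (ih.pow 2)).C_mul (by norm_num)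

lemma eval_yseq_lt (k : ℕ) : (yseq k).eval 1 < 1 := by
  induction k with
  | zero => simp [yseq]
  | succ k ih =>
    have h0 := (nn_yseq k).eval_nonneg
    show (C (1 / 2) * (Polynomial.X + yseq k ^ 2)).eval 1 < 1
    rw [eval_mul, eval_C, eval_add, eval_X, eval_pow]
    nlinarith

lemma nn_yseq_diff (k : ℕ) : NN (yseq (k + 1) - yseq k) := by
  induction k with
  | zero =>
    have : yseq 1 - yseq 0 = C (1 / 2) * Polynomial.X := by
      show C (1 / 2) * (Polynomial.X + (0 : ℝ[X]) ^ 2) - 0 = _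
      ring
    rw [this]
    exact nn_X.C_mul (by norm_num)
  | succ k ih =>
    have : yseq (k + 2) - yseq (k + 1) =
        C (1 / 2) * ((yseq (k + 1) - yseq k) * (yseq (k + 1) + yseq k)) := by
      show C (1 / 2) * (Polynomial.X + yseq (k + 1) ^ 2) - C (1 / 2) * (Polynomial.X + yseq k ^ 2) = _
      ring
    rw [this]
    exact (ih.mul ((nn_yseq _).add (nn_yseq _))).C_mul (by norm_num)

/-- The main theorem: for a self-adjoint `T` with `‖T‖ ≤ 1` on a smooth space there is a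
self-adjoint `S` with `S² = 1 - T²`, commuting with everything that commutes with `T`. -/
theorem exists_sqrt [CompleteSpace X] (hJ : IsDualityMap J) (hX : IsSmoothSpace X)
    (hT : IsSelfAdj J T) (hT1 : ‖T‖ ≤ 1) :
    ∃ S : X →L[ℂ] X, IsSelfAdj J S ∧ S ^ 2 = 1 - T ^ 2 ∧
      ∀ A : X →L[ℂ] X, Commute A T → Commute A S := by
  set Yk : ℕ → (X →L[ℂ] X) := fun k => aeval (T ^ 2) (yseq k) with hYk
  have hcauchy : CauchySeq Yk := by
    have hsum : Summable (fun k => (yseq (k + 1)).eval 1 - (yseq k).eval 1) := by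
      refine summable_of_sum_range_le (c := 1) (fun k => ?_) (fun n => ?_)
      · have := (nn_yseq_diff k).eval_nonneg
        rwa [eval_sub] at this
      · rw [Finset.sum_range_sub (fun k => (yseq k).eval 1)]
        have h1 := eval_yseq_lt n
        have h2 := (nn_yseq 0).eval_nonneg
        linarith
    refine cauchySeq_of_dist_le_of_summable _ (fun k => ?_) hsum
    rw [dist_comm, dist_eq_norm, hYk]
    show ‖aeval (T ^ 2) (yseq (k + 1)) - aeval (T ^ 2) (yseq k)‖ ≤ _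
    rw [← map_sub, ← eval_sub]
    exact norm_aeval_le hT1 (nn_yseq_diff k)
  obtain ⟨Y, hY⟩ := cauchySeq_tendsto_of_complete hcauchy
  have hV : ∀ k, aeval (T ^ 2) (1 - yseq k) = 1 - Yk k := by
    intro k
    rw [map_sub, map_one]
  have hfix : Y = (1 / 2 : ℝ) • (T ^ 2 + Y ^ 2) := by
    have h1 : Tendsto (fun k => Yk (k + 1)) atTop (𝓝 Y) := (tendsto_add_atTop_iff_nat 1).2 hY
    have h2 : Tendsto (fun k => (1 / 2 : ℝ) • (T ^ 2 + Yk k ^ 2)) atTop
        (𝓝 ((1 / 2 : ℝ) • (T ^ 2 + Y ^ 2))) := (tendsto_const_nhds.add (hY.pow 2)).const_smul _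
    refine tendsto_nhds_unique h1 (h2.congr fun k => ?_)
    show _ = aeval (T ^ 2) (C (1 / 2) * (Polynomial.X + yseq k ^ 2))
    rw [map_mul, aeval_C, map_add, aeval_X, map_pow, Algebra.smul_def]
  refine ⟨1 - Y, ?_, ?_, ?_⟩
  · intro x u
    have h1 : Tendsto (fun k => (1 - Yk k) x) atTop (𝓝 ((1 - Y) x)) := by
      have h2 : Tendsto (fun k => 1 - Yk k) atTop (𝓝 (1 - Y)) := tendsto_const_nhds.sub hY
      exact ((ContinuousLinearMap.apply ℂ X x).continuous.tendsto _).comp h2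
    have h1' : Tendsto (fun k => (1 - Yk k) u) atTop (𝓝 ((1 - Y) u)) := by
      have h2 : Tendsto (fun k => 1 - Yk k) atTop (𝓝 (1 - Y)) := tendsto_const_nhds.sub hY
      exact ((ContinuousLinearMap.apply ℂ X u).continuous.tendsto _).comp h2
    have h3 : Tendsto (fun k => J ((1 - Yk k) x) u) atTop (𝓝 (J ((1 - Y) x) u)) :=
      ((hJ.continuous_apply hX u).tendsto _).comp h1
    have h4 : Tendsto (fun k => J x ((1 - Yk k) u)) atTop (𝓝 (J x ((1 - Y) u))) :=
      ((J x).continuous.tendsto _).comp h1'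
    refine tendsto_nhds_unique h3 (h4.congr fun k => ?_)
    rw [← hV]
    exact (selfAdj_one_sub hJ hX hT hT1 (nn_yseq k) (eval_yseq_lt k) x u).symm
  · have h1 : (2 : ℝ) • Y = T ^ 2 + Y ^ 2 := by
      conv_lhs => rw [hfix]
      rw [smul_smul]
      norm_num
    have h2 : (1 - Y) ^ 2 = 1 - (2 : ℝ) • Y + Y ^ 2 := by
      rw [two_smul]
      noncomm_ring
    rw [h2, h1]
    abel
  · intro A hA
    have hk : ∀ k, Commute A (Yk k) := by
      intro k
      show Commute A (aeval (T ^ 2) (yseq k))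
      rw [aeval_eq_sum_range]
      refine Commute.sum_right _ _ _ fun n _ => ?_
      exact ((hA.pow_right 2).pow_right n).smul_right _
    have hlim : Commute A Y := by
      have h1 : Tendsto (fun k => A * Yk k) atTop (𝓝 (A * Y)) := hY.const_mul A
      have h2 : Tendsto (fun k => Yk k * A) atTop (𝓝 (Y * A)) := hY.mul_const A
      exact tendsto_nhds_unique h1 (h2.congr fun k => (hk k).eq.symm)
    exact (Commute.one_right A).sub_right hlim

lemma IsSelfAdj.real_smul (hJ : IsDualityMap J) (hX : IsSmoothSpace X) (hT : IsSelfAdj J T)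
    (c : ℝ) : IsSelfAdj J ((c : ℂ) • T) := by
  have hJc : ∀ x, J ((c : ℂ) • x) = (c : ℂ) • J x := by
    intro x
    refine unique_functional (x := (c : ℂ) • x) hX (hJ _).1 (hJ _).2 ?_ ?_
    · rw [norm_smul, norm_smul, (hJ x).1]
    · rw [smul_apply, map_smul, (hJ x).2, norm_smul, Complex.norm_real, smul_eq_mul, smul_eq_mul]
      push_cast
      rw [mul_pow, ← Complex.ofReal_pow, ← Complex.ofReal_pow, Real.norm_eq_abs, sq_abs]
      push_cast
      ring
  intro x y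
  rw [smul_apply, smul_apply, hJc, smul_apply, map_smul, hT]

/-- Q1: `‖T‖² I - T²` is strongly normal. -/
theorem stronglyNormal_norm_sq_sub [CompleteSpace X] (hJ : IsDualityMap J)
    (hX : IsSmoothSpace X) (hT : IsSelfAdj J T) :
    ∃ S : X →L[ℂ] X, IsSelfAdj J S ∧ ((‖T‖ : ℂ) ^ 2) • (1 : X →L[ℂ] X) - T ^ 2 = S ^ 2 ∧
      ∀ A : X →L[ℂ] X, Commute A T → Commute A S := by
  by_cases h0 : ‖T‖ = 0
  · have hT0 : T = 0 := norm_eq_zero.1 h0
    refine ⟨(0 : ℂ) • T, ?_, ?_, ?_⟩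
    · exact_mod_cast hT.real_smul hJ hX 0
    · rw [h0, hT0]; simp
    · intro A hA
      rw [zero_smul]
      exact Commute.zero_right A
  · have h0c : (‖T‖ : ℂ) ≠ 0 := by exact_mod_cast h0
    have hT' : IsSelfAdj J (((‖T‖⁻¹ : ℝ) : ℂ) • T) := hT.real_smul hJ hX _
    have hn : ‖((‖T‖⁻¹ : ℝ) : ℂ) • T‖ ≤ 1 := by
      rw [norm_smul, Complex.norm_real, norm_inv, norm_norm, inv_mul_cancel₀ h0]
    obtain ⟨S, hS1, hS2, hS3⟩ := exists_sqrt hJ hX hT' hn
    refine ⟨(‖T‖ : ℂ) • S, hS1.real_smul hJ hX _, ?_, ?_⟩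
    · rw [_root_.smul_pow, hS2, smul_sub, _root_.smul_pow, smul_smul]
      congr 1
      push_cast
      rw [← mul_pow, mul_inv_cancel₀ h0c, one_pow, one_smul]
    · intro A hA
      exact (hS3 A (hA.smul_right _)).smul_right _

/-- invertibility of a self-adjoint operator bounded below -/
lemma isUnit_of_bounded_below [CompleteSpace X] (hJ : IsDualityMap J) (hT : IsSelfAdj J T)
    {μ : ℝ} (hμ : 0 < μ) (hb : ∀ x, μ * ‖x‖ ≤ ‖T x‖) : IsUnit T := by
  have hlow : ∀ c : ℝ, 0 ≤ c → ∀ x, μ ^ 2 * ‖x‖ ≤ ‖(T ^ 2 + (c : ℂ) • (1 : X →L[ℂ] X)) x‖ := by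
    intro c hc x
    by_cases hx : x = 0
    · rw [hx]; simp
    have hx0 : 0 < ‖x‖ := norm_pos_iff.2 hx
    have h1 : (J x ((T ^ 2 + (c : ℂ) • (1 : X →L[ℂ] X)) x)).re = ‖T x‖ ^ 2 + c * ‖x‖ ^ 2 := by
      rw [add_apply, smul_apply, one_apply_eq_self, map_add, map_smul, Complex.add_re, smul_eq_mul,
        Complex.re_ofReal_mul, hJ.re_self, sq T, mul_apply_eq_comp, ← hT, hJ.re_self]
    have h2 := hJ.re_le x ((T ^ 2 + (c : ℂ) • (1 : X →L[ℂ] X)) x)
    rw [h1] at h2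
    have h3 := hb x
    have h4 : (μ * ‖x‖) ^ 2 ≤ ‖T x‖ ^ 2 := by gcongr
    have h5 : 0 ≤ c * ‖x‖ ^ 2 := by positivity
    have h6 : ‖x‖ * (μ ^ 2 * ‖x‖) ≤ ‖x‖ * ‖(T ^ 2 + (c : ℂ) • (1 : X →L[ℂ] X)) x‖ := by nlinarith
    exact le_of_mul_le_mul_left h6 hx0
  -- stepping down
  have key : ∀ n : ℕ, ∀ c : ℝ, 0 ≤ c → ‖T ^ 2‖ + 1 - n * (μ ^ 2 / 2) ≤ c →
      IsUnit (T ^ 2 + (c : ℂ) • (1 : X →L[ℂ] X)) := by
    intro n
    induction n with
    | zero =>
      intro c hc h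
      have hcpos : 0 < c := by
        have := norm_nonneg (T ^ 2)
        push_cast at h
        linarith
      have hc0 : (c : ℂ) ≠ 0 := by exact_mod_cast hcpos.ne'
      have h1 : T ^ 2 + (c : ℂ) • (1 : X →L[ℂ] X) =
          (c : ℂ) • (1 - (-((c : ℂ)⁻¹ • T ^ 2))) := by
        rw [sub_neg_eq_add, smul_add, smul_smul, mul_inv_cancel₀ hc0, one_smul, add_comm]
      rw [h1]
      have h2 : ‖-((c : ℂ)⁻¹ • T ^ 2)‖ < 1 := by
        rw [norm_neg, norm_smul, norm_inv, Complex.norm_real, Real.norm_of_nonneg hc,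
          inv_mul_lt_iff₀ hcpos, mul_one]
        push_cast at h
        linarith
      exact (isUnit_one_sub_of_norm_lt_one h2).smul (Units.mk0 (c : ℂ) hc0)
    | succ n ih =>
      intro c hc h
      have h1 := ih (c + μ ^ 2 / 2) (by positivity) (by push_cast at h; linarith)
      obtain ⟨U, hU⟩ := h1
      have hinv : ‖(↑U⁻¹ : X →L[ℂ] X)‖ ≤ 1 / μ ^ 2 := by
        refine ContinuousLinearMap.opNorm_le_bound _ (by positivity) fun x => ?_
        have h2 := hlow (c + μ ^ 2 / 2) (by positivity) ((↑U⁻¹ : X →L[ℂ] X) x)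
        rw [← hU, ← mul_apply_eq_comp, Units.mul_inv, one_apply_eq_self] at h2
        rw [div_mul_eq_mul_div, one_mul, le_div_iff₀ (by positivity)]
        linarith
      have h3 : T ^ 2 + (c : ℂ) • (1 : X →L[ℂ] X) =
          (U : X →L[ℂ] X) * (1 - ((μ ^ 2 / 2 : ℝ) : ℂ) • (↑U⁻¹ : X →L[ℂ] X)) := by
        rw [mul_sub, mul_one, mul_smul_comm, Units.mul_inv, hU, add_sub_assoc, ← sub_smul]
        congr 2
        push_cast
        ring
      rw [h3]
      refine U.isUnit.mul (isUnit_one_sub_of_norm_lt_one ?_)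
      rw [norm_smul, Complex.norm_real, Real.norm_of_nonneg (by positivity)]
      calc μ ^ 2 / 2 * ‖(↑U⁻¹ : X →L[ℂ] X)‖ ≤ μ ^ 2 / 2 * (1 / μ ^ 2) := by gcongr
        _ = 1 / 2 := by field_simp
        _ < 1 := by norm_num
  obtain ⟨n, hn⟩ := exists_nat_gt ((‖T ^ 2‖ + 1) / (μ ^ 2 / 2))
  have h1 := key n 0 le_rfl (by
    rw [div_lt_iff₀ (by positivity)] at hn
    linarith)
  rw [Complex.ofReal_zero, zero_smul, add_zero] at h1
  exact (isUnit_pow_iff two_ne_zero).1 h1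

/-- Q2: `T² - μ(T)² I` is strongly normal. -/
theorem stronglyNormal_sq_sub [CompleteSpace X] (hJ : IsDualityMap J)
    (hX : IsSmoothSpace X) (hT : IsSelfAdj J T) :
    IsStronglyNormal J (T ^ 2 - (((⨅ x : Metric.sphere (0 : X) 1, ‖T x‖ : ℝ) : ℂ) ^ 2) •
      (1 : X →L[ℂ] X)) := by
  set μ : ℝ := ⨅ x : Metric.sphere (0 : X) 1, ‖T x‖ with hμ
  have hμ0 : 0 ≤ μ := Real.iInf_nonneg fun _ => norm_nonneg _
  rcases hμ0.eq_or_lt with h0 | hpos
  · refine ⟨T, hT, ?_⟩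
    rw [← h0]
    simp
  · have hb : ∀ x, μ * ‖x‖ ≤ ‖T x‖ := by
      intro x
      by_cases hx : x = 0
      · rw [hx]; simp
      have hx0 : ‖x‖ ≠ 0 := norm_ne_zero_iff.2 hx
      have hu : ((‖x‖ : ℂ)⁻¹) • x ∈ Metric.sphere (0 : X) 1 := by
        rw [mem_sphere_zero_iff_norm, norm_smul, norm_inv, Complex.norm_real, norm_norm,
          inv_mul_cancel₀ hx0]
      have h1 : μ ≤ ‖T (((‖x‖ : ℂ)⁻¹) • x)‖ := by
        have hbdd : BddBelow (Set.range fun x : Metric.sphere (0 : X) 1 => ‖T x‖) :=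
          ⟨0, by rintro _ ⟨x, rfl⟩; exact norm_nonneg _⟩
        exact ciInf_le hbdd ⟨_, hu⟩
      rw [map_smul, norm_smul, norm_inv, Complex.norm_real, norm_norm] at h1
      have hx1 : 0 < ‖x‖ := norm_pos_iff.2 hx
      rw [le_inv_mul_iff₀ hx1] at h1
      linarith
    obtain ⟨U, hU⟩ := isUnit_of_bounded_below hJ hT hpos hb
    set W : X →L[ℂ] X := ↑U⁻¹ with hW
    have hTW : T * W = 1 := by rw [← hU]; exact Units.mul_inv U
    have hWT : W * T = 1 := by rw [← hU]; exact Units.inv_mul U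
    have hWadj : IsSelfAdj J W := by
      intro x y
      have h1 := hT (W x) (W y)
      rw [← mul_apply_eq_comp T W x, ← mul_apply_eq_comp T W y, hTW, one_apply_eq_self,
        one_apply_eq_self] at h1
      exact h1.symm
    have hA : IsSelfAdj J ((μ : ℂ) • W) := hWadj.real_smul hJ hX μ
    have hAn : ‖(μ : ℂ) • W‖ ≤ 1 := by
      refine ContinuousLinearMap.opNorm_le_bound _ zero_le_one fun x => ?_
      rw [smul_apply, norm_smul, Complex.norm_real, Real.norm_of_nonneg hpos.le, one_mul]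
      have h1 := hb (W x)
      rwa [← mul_apply_eq_comp, hTW, one_apply_eq_self] at h1
    obtain ⟨S, hS1, hS2, hS3⟩ := exists_sqrt hJ hX hA hAn
    have hcomm : Commute T S := by
      refine hS3 T ?_
      have : Commute T W := hTW.trans hWT.symm
      exact this.smul_right _
    refine ⟨T * S, ?_, ?_⟩
    · intro x y
      rw [mul_apply_eq_comp, hT, hS1, ← mul_apply_eq_comp, ← hcomm.eq]
    · rw [hcomm.mul_pow, hS2, mul_sub, mul_one, _root_.smul_pow, mul_smul_comm]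
      have : T ^ 2 * W ^ 2 = 1 := by
        rw [sq, sq, mul_assoc, ← mul_assoc T W W, hTW, one_mul, hTW]
      rw [this]

end Sqrt

end Pool.Agent.helper34.StrongNormal
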